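import Pool.Agent.H70.SqDefs

set_option autoImplicit false

namespace Pool.Agent.Results.MP_4d6048_al.Counterexample

open Pool.Agent.H70.Sq Polynomial

variable {X : Type} [AddCommGroup X]

def A (i : X) : Pi1 X := PresentedGroup.of (Sum.inl i)
def B (j : X) : Pi1 X := PresentedGroup.of (Sum.inr j)

theorem rel (i j : X) : A i * B j = B (i + j) * A (i - j) := by
  have := PresentedGroup.one_of_mem (rels := rels X) ⟨i, j, rfl⟩
  rw [map_mul, map_inv, map_mul, map_mul, mul_inv_eq_one] at this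
  exact this

def lift {H : Type} [Group H] (a b : X → H) (h : ∀ i j, a i * b j = b (i + j) * a (i - j)) :
    Pi1 X →* H :=
  PresentedGroup.toGroup (f := Sum.elim a b) (by
    rintro r ⟨i, j, rfl⟩
    simp [h])

theorem lift_A {H : Type} [Group H] (a b : X → H) (h) (i : X) : lift a b h (A i) = a i :=
  PresentedGroup.toGroup.of _
theorem lift_B {H : Type} [Group H] (a b : X → H) (h) (i : X) : lift a b h (B i) = b i :=
  PresentedGroup.toGroup.of _

def Y (i : X) : Pi1 X := (A 0)⁻¹ * A i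
def U (X : Type) [AddCommGroup X] : Pi1 X := A 0 * B 0
def c (n : ℕ) (i : X) : Pi1 X := A 0 ^ n * Y i * (A 0 ^ n)⁻¹

section
variable (h2 : ∀ x : X, x + x = 0)
include h2

theorem sub_eq (i j : X) : i - j = i + j := by
  rw [sub_eq_add_neg, neg_eq_of_add_eq_zero_right (h2 j)]

theorem YB (i j : X) : Y i * B j = B (i + j) := by
  have e1 := rel i j
  have e2 := rel 0 (i + j)
  rw [sub_eq h2] at e1 e2
  rw [zero_add] at e2
  rw [Y, mul_assoc, e1, ← e2]; group

theorem YY (i j : X) : Y (i + j) = Y i * Y j := by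
  have := YB h2 (i + j) 0
  rw [add_zero, ← add_zero j, ← YB h2, ← YB h2, add_zero, ← mul_assoc] at this
  exact mul_right_cancel this

omit h2 in
theorem Y0 : Y (0 : X) = 1 := by simp [Y]

omit h2 in
theorem st : Commute (A (0 : X)) (B 0) := by
  show _ = _
  simpa using rel (0 : X) 0

theorem UY (i : X) : U X * Y i * (U X)⁻¹ = Y i * c 1 i := by
  have e2 := rel 0 i
  rw [sub_eq h2, zero_add] at e2
  have e3 := YB h2 i 0
  rw [add_zero] at e3
  have e4 : A i = A 0 * Y i := by simp [Y]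
  have e5 : Y i * Y i = 1 := by rw [← YY h2, h2, Y0]
  rw [← e3, e4] at e2
  have e6 : U X = B 0 * A 0 := st.eq
  have e7 : A 0 * Y i * (A 0)⁻¹ * U X = Y i * U X * Y i := by
    calc _ = A 0 * (Y i * B 0) := by rw [U]; group
      _ = _ := by rw [e2, e6]; group
  rw [c, pow_one, mul_inv_eq_iff_eq_mul, mul_assoc, e7, ← mul_assoc, ← mul_assoc, e5, one_mul]

omit h2 in
theorem sU : Commute (A (0 : X)) (U X) := (Commute.refl _).mul_right st

omit h2 in
theorem sc (n : ℕ) (i : X) : A 0 * c n i * (A 0)⁻¹ = c (n + 1) i := by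
  simp only [c, pow_succ']; group

omit h2 in
theorem c0 (i : X) : c 0 i = Y i := by simp [c]

theorem Uc (n : ℕ) (i : X) : U X * c n i * (U X)⁻¹ = c n i * c (n + 1) i := by
  induction n with
  | zero => rw [c0, UY h2]
  | succ n ih =>
    rw [← sc (n + 1), ← sc n]
    have : U X * (A 0 * c n i * (A 0)⁻¹) * (U X)⁻¹ = A 0 * (U X * c n i * (U X)⁻¹) * (A 0)⁻¹ := by
      calc _ = (U X * A 0) * c n i * (U X * A 0)⁻¹ := by group
        _ = (A 0 * U X) * c n i * (A 0 * U X)⁻¹ := by rw [sU.eq]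
        _ = _ := by group
    rw [this, ih, sc n, ← sc n]; group

theorem cc (n : ℕ) (i j : X) : c n (i + j) = c n i * c n j := by
  simp only [c, YY h2]; group

omit h2 in
theorem conj_comm {G : Type} [Group G] {x y : G} (g : G) (h : Commute x y) :
    Commute (g * x * g⁻¹) (g * y * g⁻¹) := by
  have := h.map (MulAut.conj g)
  simpa using this

theorem comm0 (n : ℕ) : ∀ m ≤ n, ∀ i j : X, Commute (c 0 i) (c m j) := by
  have z : ∀ n, ∀ i j : X, Commute (c n i) (c n j) := fun n i j => by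
    show _ = _
    rw [← cc h2, ← cc h2, add_comm]
  have o : ∀ i j : X, Commute (c 0 i) (c 1 j) := fun i j => by
    have e := Uc h2 0 (j + i)
    rw [cc h2, cc h2] at e
    have e2 : U X * (c 0 j * c 0 i) * (U X)⁻¹ =
        (U X * c 0 j * (U X)⁻¹) * (U X * c 0 i * (U X)⁻¹) := by group
    rw [e2, Uc h2, Uc h2] at e
    show _ = _
    have e3 : c 0 j * (c 1 j * c 0 i) * c 1 i = c 0 j * (c 0 i * c 1 j) * c 1 i := by
      simpa [mul_assoc] using e
    exact (mul_left_cancel (mul_right_cancel e3)).symm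
  induction n with
  | zero => intro m hm i j; obtain rfl : m = 0 := by omega
            exact z _ _ _
  | succ n ih =>
    intro m hm i j
    rcases Nat.lt_or_ge m (n + 1) with h | h
    · exact ih m (by omega) i j
    obtain rfl : m = n + 1 := by omega
    rcases n with _ | n
    · exact o i j
    have e := conj_comm (U X) (ih (n + 1) le_rfl i j)
    rw [Uc h2, Uc h2] at e
    have a1 := conj_comm (A 0) (ih (n + 1) le_rfl i j)
    have a2 := conj_comm (A 0) (ih n (by omega) i j)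
    rw [sc, sc] at a1 a2
    have a3 := ih (n + 1) le_rfl i j
    have a4 : Commute (c 0 i * c 1 i) (c (n + 1 + 1) j) := by
      have := (a3.mul_left a2).inv_right.mul_right e
      simpa using this
    have := a4.mul_left a1.inv_left
    simpa using this

theorem comm (n m : ℕ) (i j : X) : Commute (c n i) (c m j) := by
  have key : ∀ n k : ℕ, ∀ i j : X, Commute (c n i) (c (k + n) j) := fun n k i j => by
    induction n with
    | zero => exact comm0 h2 k k le_rfl i j
    | succ n ih =>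
      have := conj_comm (A 0) ih
      rwa [sc, sc] at this
  rcases le_total n m with h | h
  · obtain ⟨k, rfl⟩ := Nat.exists_eq_add_of_le' h
    exact key _ _ _ _
  · obtain ⟨k, rfl⟩ := Nat.exists_eq_add_of_le' h
    exact (key _ _ _ _).symm

end

def P (f : ℕ → X) : ℕ → Pi1 X
  | 0 => 1
  | d + 1 => P f d * c d (f d)

def NN (X : Type) [AddCommGroup X] : Subgroup (Pi1 X) :=
  Subgroup.closure {g | ∃ n i, g = c n i}

theorem P_comm (h2 : ∀ x : X, x + x = 0) (f : ℕ → X) (d n : ℕ) (i : X) :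
    Commute (c n i) (P f d) := by
  induction d with
  | zero => exact Commute.one_right _
  | succ d ih => exact ih.mul_right (comm h2 _ _ _ _)

theorem P_add (h2 : ∀ x : X, x + x = 0) (f g : ℕ → X) (d : ℕ) :
    P (f + g) d = P f d * P g d := by
  induction d with
  | zero => simp [P]
  | succ d ih =>
    simp only [P, ih, Pi.add_apply, cc h2]
    calc _ = P f d * (P g d * c d (f d)) * c d (g d) := by group
      _ = _ := by rw [← (P_comm h2 g d d (f d)).eq]; group

theorem P_zero (f : ℕ → X) (d : ℕ) (h : ∀ n < d, f n = 0) : P f d = 1 := by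
  induction d with
  | zero => rfl
  | succ d ih => simp [P, ih (fun n hn => h n (by omega)), h d (by omega), c, Y0]

theorem NN_P (h2 : ∀ x : X, x + x = 0) (g : Pi1 X) (hg : g ∈ NN X) :
    ∃ f : ℕ → X, ∃ d, ∀ e, d ≤ e → g = P f e := by
  induction hg using Subgroup.closure_induction with
  | mem x hx =>
    obtain ⟨n, i, rfl⟩ := hx
    refine ⟨fun k => if k = n then i else 0, n + 1, fun e he => ?_⟩
    induction e, he using Nat.le_induction with
    | base => rw [P, P_zero _ _ (fun k hk => if_neg (by omega))]; simp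
    | succ e he ih => rw [P, ← ih, if_neg (by omega)]; simp [c, Y0]
  | one => exact ⟨0, 0, fun e _ => (P_zero _ _ (fun _ _ => rfl)).symm⟩
  | mul x y _ _ hx hy =>
    obtain ⟨f, d, h⟩ := hx
    obtain ⟨f', d', h'⟩ := hy
    exact ⟨f + f', max d d', fun e he => by
      rw [P_add h2, ← h e (le_of_max_le_left he), ← h' e (le_of_max_le_right he)]⟩
  | inv x _ hx =>
    obtain ⟨f, d, h⟩ := hx
    refine ⟨f, d, fun e he => ?_⟩
    rw [inv_eq_iff_mul_eq_one, h e he, ← P_add h2]
    exact P_zero _ _ (fun n _ => h2 _)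

theorem NN_conj (w : Pi1 X) (hw : ∀ n i, w * c n i * w⁻¹ ∈ NN X) (g : Pi1 X) (hg : g ∈ NN X) :
    w * g * w⁻¹ ∈ NN X := by
  induction hg using Subgroup.closure_induction with
  | mem x hx => obtain ⟨n, i, rfl⟩ := hx; exact hw n i
  | one => simp
  | mul x y _ _ hx hy => simpa using mul_mem hx hy
  | inv x _ hx => simpa [mul_assoc] using inv_mem hx

theorem c_mem (n : ℕ) (i : X) : c n i ∈ NN X := Subgroup.subset_closure ⟨n, i, rfl⟩

theorem NN_s (g : Pi1 X) (hg : g ∈ NN X) : A 0 * g * (A 0)⁻¹ ∈ NN X :=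
  NN_conj _ (fun n i => by rw [sc]; exact c_mem _ _) g hg

theorem NN_U (h2 : ∀ x : X, x + x = 0) (g : Pi1 X) (hg : g ∈ NN X) :
    U X * g * (U X)⁻¹ ∈ NN X :=
  NN_conj _ (fun n i => by rw [Uc h2]; exact mul_mem (c_mem _ _) (c_mem _ _)) g hg

def W (X : Type) [AddCommGroup X] : Pi1 X := A 0 * U X

theorem NN_W (h2 : ∀ x : X, x + x = 0) (k : ℕ) (g : Pi1 X) (hg : g ∈ NN X) :
    W X ^ k * g * (W X ^ k)⁻¹ ∈ NN X := by
  induction k with
  | zero => simpa using hg
  | succ k ih =>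
    have := NN_s _ (NN_U h2 _ ih)
    convert this using 1
    have e : W X ^ (k + 1) = A 0 * U X * W X ^ k := pow_succ' _ _
    rw [e]
    generalize W X ^ k = w
    group

def BB (h2 : ∀ x : X, x + x = 0) : Subgroup (Pi1 X) where
  carrier := {g | ∃ k : ℕ, W X ^ k * g * (W X ^ k)⁻¹ ∈ NN X}
  one_mem' := ⟨0, by simp⟩
  mul_mem' := by
    rintro x y ⟨k, hk⟩ ⟨l, hl⟩
    refine ⟨k + l, ?_⟩
    have := mul_mem (NN_W h2 l _ hk) (NN_W h2 k _ hl)
    convert this using 1
    group
  inv_mem' := by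
    rintro x ⟨k, hk⟩
    refine ⟨k, ?_⟩
    convert inv_mem hk using 1
    group

theorem BB_norm (h2 : ∀ x : X, x + x = 0) (p q : Pi1 X) (hpq : W X = q * p) (hc : Commute p q)
    (hp : ∀ g ∈ NN X, p * g * p⁻¹ ∈ NN X) (hq : ∀ g ∈ NN X, q * g * q⁻¹ ∈ NN X) :
    p ∈ Subgroup.normalizer (BB h2 : Set (Pi1 X)) := by
  have c1 : ∀ k : ℕ, W X ^ k * p = p * W X ^ k := fun k => by
    refine (Commute.pow_left ?_ k).eq
    rw [hpq]; exact hc.symm.mul_left (Commute.refl p)
  have c2 : ∀ k : ℕ, W X ^ (k + 1) = q * (W X ^ k * p) := fun k => by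
    rw [c1, pow_succ', ← mul_assoc, ← hpq]
  rw [Subgroup.mem_normalizer_iff]
  intro g
  constructor
  · rintro ⟨k, hk⟩
    refine ⟨k, ?_⟩
    convert hp _ hk using 1
    calc _ = (W X ^ k * p) * g * (W X ^ k * p)⁻¹ := by group
      _ = _ := by rw [c1]; group
  · rintro ⟨k, hk⟩
    refine ⟨k + 1, ?_⟩
    convert hq _ hk using 1
    rw [c2]; group

theorem nf (h2 : ∀ x : X, x + x = 0) (g : Pi1 X) :
    ∃ b ∈ BB h2, ∃ m n : ℤ, g = b * (A 0 ^ m * U X ^ n) := by
  have n1 := BB_norm h2 (A 0) (U X) sU.eq sU NN_s (NN_U h2)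
  have n2 := BB_norm h2 (U X) (A 0) rfl sU.symm (NN_U h2) NN_s
  have n3 : ∀ (m n : ℤ), ∀ b ∈ BB h2, (A 0 ^ m * U X ^ n) * b * (A 0 ^ m * U X ^ n)⁻¹ ∈ BB h2 :=
    fun m n b hb => ((Subgroup.mem_normalizer_iff.1
      (mul_mem (zpow_mem n1 m) (zpow_mem n2 n))) b).1 hb
  have hY : ∀ n (i : X), c n i ∈ BB h2 := fun n i => ⟨0, by simpa using c_mem n i⟩
  have cz : ∀ m n : ℤ, U X ^ n * A 0 ^ m = A (0 : X) ^ m * U X ^ n := fun m n =>
    (sU.zpow_zpow m n).eq.symm
  let C : Subgroup (Pi1 X) :=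
    { carrier := {g | ∃ b ∈ BB h2, ∃ m n : ℤ, g = b * (A 0 ^ m * U X ^ n)}
      one_mem' := ⟨1, one_mem _, 0, 0, by simp⟩
      mul_mem' := by
        rintro x y ⟨b, hb, m, n, rfl⟩ ⟨b', hb', m', n', rfl⟩
        refine ⟨_, mul_mem hb (n3 m n b' hb'), m + m', n + n', ?_⟩
        calc _ = b * (A 0 ^ m * U X ^ n * b' * (A 0 ^ m * U X ^ n)⁻¹) *
            (A 0 ^ m * (U X ^ n * A 0 ^ m') * U X ^ n') := by group
          _ = _ := by rw [cz]; group
      inv_mem' := by
        rintro x ⟨b, hb, m, n, rfl⟩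
        refine ⟨_, n3 (-m) (-n) _ (inv_mem hb), -m, -n, ?_⟩
        rw [← cz]; group }
  refine PresentedGroup.generated_by _ C ?_ g
  rintro (i | j)
  · refine ⟨c 1 i, hY _ _, 1, 0, ?_⟩
    show A i = _
    simp [c, Y]
  · refine ⟨c 0 j, hY _ _, -1, 1, ?_⟩
    show B j = _
    rw [c0, ← add_zero j, ← YB h2, add_zero]
    simp [U]

theorem ab_kill (h2 : ∀ x : X, x + x = 0) {H : Type} [CommGroup H] (φ : Pi1 X →* H)
    (h : ∀ i, φ (A i) = φ (A 0)) (b : Pi1 X) (hb : b ∈ BB h2) : φ b = 1 := by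
  obtain ⟨k, hk⟩ := hb
  have : NN X ≤ φ.ker := by
    rw [NN, Subgroup.closure_le]
    rintro _ ⟨n, i, rfl⟩
    simp [c, Y, h i]
  simpa using this hk

theorem zm (m : ℤ) (hm : m ≠ 0) :
    (Multiplicative.ofAdd (1 : ZMod (m.natAbs + 1))) ^ m ≠ 1 := by
  rw [← ofAdd_zsmul, Ne, ofAdd_eq_one, zsmul_eq_mul, mul_one, ZMod.intCast_zmod_eq_zero_iff_dvd]
  intro h
  have := Int.natAbs_le_of_dvd_ne_zero h hm
  omega

theorem aff (h2 : ∀ x : X, x + x = 0) (l : X →+ ZMod 2) (Q : Type) [CommRing Q]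
    [Algebra (ZMod 2) Q] (σ υ : Qˣ) (h : (υ : Q) = 1 + σ) :
    ∃ φ : Pi1 X →* Equiv.Perm Q, ∀ f d z, φ (P f d) z =
      z + ∑ n ∈ Finset.range d, algebraMap (ZMod 2) Q (l (f n)) * σ ^ n := by
  have t2 : ∀ z : Q, z + z = 0 := fun z => by
    have : (2 : Q) = 0 := by
      have := map_ofNat (algebraMap (ZMod 2) Q) 2
      rw [← this, show (OfNat.ofNat 2 : ZMod 2) = 0 from rfl, map_zero]
    rw [← two_mul, this, zero_mul]
  let L : X → Q := fun i => algebraMap (ZMod 2) Q (l i)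
  let a : X → Equiv.Perm Q := fun i => σ.mulLeft * Equiv.addRight (L i)
  let b : X → Equiv.Perm Q := fun j => Equiv.addRight (L j) * (σ⁻¹ * υ).mulLeft
  have hab : ∀ i j, a i * b j = b (i + j) * a (i - j) := fun i j => by
    ext z
    rw [sub_eq h2]
    have e : (σ : Q) * (σ⁻¹ : Qˣ) = 1 := by simp
    simp only [a, b, L, Equiv.Perm.mul_apply, Units.mulLeft_apply, Equiv.coe_addRight,
      Units.val_mul, map_add, h]
    linear_combination (-(1 + σ) * (algebraMap (ZMod 2) Q (l i) + algebraMap (ZMod 2) Q (l j))) * e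
      - t2 (algebraMap (ZMod 2) Q (l i)) - t2 (algebraMap (ZMod 2) Q (l j))
  have hs : lift a b hab (A 0) = σ.mulLeft := by
    rw [lift_A]; ext z; simp [a, L]
  have hY : ∀ i, lift a b hab (Y i) = Equiv.addRight (L i) := fun i => by
    rw [Y, map_mul, map_inv, hs, lift_A]; simp [a]
  have hc : ∀ n i z, lift a b hab (c n i) z = z + L i * σ ^ n := fun n i => by
    induction n with
    | zero => intro z; rw [c0, hY]; simp
    | succ n ih =>
      intro z
      rw [← sc, map_mul, map_mul, map_inv, hs]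
      simp only [Equiv.Perm.mul_apply, ih, Units.mulLeft_apply, Equiv.Perm.inv_def,
        Units.mulLeft_symm, mul_add, Units.mul_inv_cancel_left]
      ring
  refine ⟨lift a b hab, fun f d => ?_⟩
  induction d with
  | zero => intro z; simp [P]
  | succ d ih =>
    intro z
    rw [P, map_mul, Equiv.Perm.mul_apply, hc, ih, Finset.sum_range_succ]
    ring

theorem main (h2 : ∀ x : X, x + x = 0) : RF (Pi1 X) := by
  intro g hg
  obtain ⟨b, hb, m, n, rfl⟩ := nf h2 g
  by_cases hn : n = 0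
  swap
  · let φ : Pi1 X →* Multiplicative (ZMod (n.natAbs + 1)) :=
      lift (fun _ => 1) (fun _ => Multiplicative.ofAdd 1) (fun _ _ => mul_comm _ _)
    refine ⟨_, inferInstance, inferInstance, φ, ?_⟩
    rw [map_mul, ab_kill h2 φ (fun i => by simp [φ, lift_A]) b hb]
    simpa [φ, U, lift_A, lift_B] using zm n hn
  subst hn
  by_cases hm : m = 0
  swap
  · let φ : Pi1 X →* Multiplicative (ZMod (m.natAbs + 1)) :=
      lift (fun _ => Multiplicative.ofAdd 1) (fun _ => 1) (fun _ _ => mul_comm _ _)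
    refine ⟨_, inferInstance, inferInstance, φ, ?_⟩
    rw [map_mul, ab_kill h2 φ (fun i => by simp [φ, lift_A]) b hb]
    simpa [φ, U, lift_A, lift_B] using zm m hm
  subst hm
  simp only [zpow_zero, mul_one] at hg ⊢
  obtain ⟨k, hk⟩ := hb
  obtain ⟨f, d, hf⟩ := NN_P h2 _ hk
  have hf := hf d le_rfl
  have : ∃ n < d, f n ≠ 0 := by
    by_contra hh
    push Not at hh
    rw [P_zero f d hh] at hf
    exact hg (by simpa using hf)
  obtain ⟨n, hn, hfn⟩ := this
  letI : Module (ZMod 2) X := AddCommGroup.zmodModule (n := 2) (fun x => by rw [two_nsmul, h2])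
  obtain ⟨l, hl⟩ : ∃ l : Module.Dual (ZMod 2) X, l (f n) ≠ 0 := by
    by_contra hh
    push Not at hh
    exact hfn ((Module.forall_dual_apply_eq_zero_iff (ZMod 2) _).1 hh)
  let p : (ZMod 2)[X] := Polynomial.X ^ (d + 2) + (Polynomial.X ^ (d + 1) + 1)
  have hp : p.Monic := by
    refine monic_X_pow_add ?_
    refine lt_of_le_of_lt (b := ((d + 1 : ℕ) : WithBot ℕ)) ?_ (by exact_mod_cast Nat.lt_succ_self _)
    refine (degree_add_le _ _).trans (max_le (degree_X_pow_le _) ?_)
    exact degree_one_le.trans (by exact_mod_cast Nat.zero_le _)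
  have hd : p.natDegree = d + 2 := by
    simp only [p]; compute_degree!
  let Q := AdjoinRoot p
  haveI : Module.Finite (ZMod 2) Q := (AdjoinRoot.powerBasis' hp).finite
  haveI : Finite Q := Module.finite_of_finite (ZMod 2)
  let r : Q := AdjoinRoot.root p
  have hr : r ^ (d + 2) + (r ^ (d + 1) + 1) = 0 := by
    have : AdjoinRoot.mk p (Polynomial.X ^ (d + 2) + (Polynomial.X ^ (d + 1) + 1)) = 0 :=
      AdjoinRoot.mk_self
    simpa only [map_add, map_pow, map_one, AdjoinRoot.mk_X] using this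
  let σ : Qˣ := Units.mkOfMulEqOne r (-(r ^ d * (1 + r))) (by linear_combination -hr)
  let υ : Qˣ := Units.mkOfMulEqOne (1 + r) (-(r ^ (d + 1))) (by linear_combination -hr)
  obtain ⟨φ, hφ⟩ := aff h2 l.toAddMonoidHom Q σ υ rfl
  refine ⟨_, inferInstance, inferInstance, φ, fun h1 => ?_⟩
  have h3 : φ (P f d) = 1 := by rw [← hf]; simp [h1]
  have h4 := hφ f d 0
  rw [h3, zero_add] at h4
  let F : (ZMod 2)[X] := ∑ n ∈ Finset.range d, C (l (f n)) * Polynomial.X ^ n
  have hF : AdjoinRoot.mk p F = 0 := by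
    simp only [F, map_sum, map_mul, map_pow, AdjoinRoot.mk_C, AdjoinRoot.mk_X]
    exact h4.symm
  refine AdjoinRoot.mk_ne_zero_of_natDegree_lt hp (fun h0 => ?_) ?_ hF
  · have := congrArg (fun q => coeff q n) h0
    simp [F, coeff_X_pow, hn] at this
    exact hl this
  · rw [hd]
    refine lt_of_le_of_lt (natDegree_sum_le_of_forall_le _ _ (n := d) fun i hi => ?_) (by omega)
    exact (natDegree_C_mul_X_pow_le _ _).trans (Finset.mem_range.1 hi).le

theorem result :
    (∀ (X : Type) [AddCommGroup X], (∀ x : X, x + x = 0) → RF (Pi1 X)) ∧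
    ¬ (∀ (X : Type) [AddCommGroup X] [Finite X], 2 < Nat.card X → ¬ RF (Pi1 X)) :=
  ⟨fun _ _ h => main h, fun h => h (ZMod 2 × ZMod 2) (by simp) (main (by decide))⟩

end Pool.Agent.Results.MP_4d6048_al.Counterexample
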